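import Pool.Agent.H97.HV.Targets2
import Pool.Agent.H75.PRK.EQB

/-!
# NBC. Small sets of points of a club over HOD(V_ min(γ, m)) in the first case (MP_e37c09_lc)
-/

open Ordinal Cardinal Order Set
open scoped ZFSet

universe u

namespace Pool.Agent.H63.HV

open _root_.HD HD.PRK HD.HV Pool.Agent.H45.NF

theorem nbc_clb {K : Cardinal.{u}} (hK : ℵ₀ < K) {δ : Ordinal.{u}} (hδ : δ < K.ord) :
    Clb K.ord {b : Ordinal.{u} | IsSuccLimit b ∧ δ < b} := by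
  constructor
  · intro a ha
    have hω : ω < K.ord := by
      rw [← ord_aleph0]
      exact ord_lt_ord.2 hK
    refine ⟨max a δ + ω, Ordinal.isPrincipal_add_ord hK.le (max_lt ha hδ) hω, ?_, ?_, ?_⟩
    · exact (le_max_left a δ).trans_lt (lt_add_of_pos_right _ omega0_pos)
    · exact isSuccLimit_add _ isSuccLimit_omega0
    · exact (le_max_right a δ).trans_lt (lt_add_of_pos_right _ omega0_pos)
  · intro x _ hx0 h
    rw [Set.mem_ofPred_eq]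
    constructor
    · rw [Ordinal.isSuccLimit_iff]
      refine ⟨hx0.ne', ?_⟩
      rw [isSuccPrelimit_iff_succ_lt]
      intro a ha
      obtain ⟨z, hz, haz, _⟩ := h a ha
      exact (succ_le_of_lt haz).trans_lt hz
    · obtain ⟨z, hz, -, -, h2⟩ := h 0 hx0
      exact h2.trans hz

theorem nbc_lim {γ m : Ordinal.{u}} (hγ : IsSuccLimit γ) (hm : IsSuccLimit m) :
    IsSuccLimit (min γ m) := by
  rcases le_total γ m with h | h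
  · rwa [min_eq_left h]
  · rwa [min_eq_right h]

/-- the family of the sets which are defined like `B` -/
theorem nbc_odp {m : Ordinal.{u}} {R Z0 Z1 a : ZFSet.{u}} (hR : OD R) (hZ0 : OD Z0)
    (h : ∀ z, z ∈ Z1 ↔ z ⊆ m.toZFSet ∧ ∃ x1 ∈ Z0, ∀ y, ZFSet.pair (ZFSet.pair x1 a) y ∈ R ↔
      y = z) : NF.ODp a Z1 := by
  refine ODp.of_dz (Q := fun v => ∀ z, z ∈ v 0 ↔ z ⊆ m.toZFSet ∧ ∃ x1 ∈ Z0, ∀ y,
    ZFSet.pair (ZFSet.pair x1 (v 1)) y ∈ R ↔ y = z) ?_ fun w => ?_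
  · refine DZ.od (R := fun M v => ∀ z, z ∈ v 0 ↔ z ⊆ M ∧ ∃ x1 ∈ Z0, ∀ y,
      ZFSet.pair (ZFSet.pair x1 (v 1)) y ∈ R ↔ y = z) (OD.ordinal m) ?_
    refine DZ.od (R := fun Z v => ∀ z, z ∈ v 1 ↔ z ⊆ v 0 ∧ ∃ x1 ∈ Z, ∀ y,
      ZFSet.pair (ZFSet.pair x1 (v 2)) y ∈ R ↔ y = z) hZ0 ?_
    refine DZ.od (R := fun r v => ∀ z, z ∈ v 2 ↔ z ⊆ v 1 ∧ ∃ x1 ∈ v 0, ∀ y,
      ZFSet.pair (ZFSet.pair x1 (v 3)) y ∈ r ↔ y = z) hR ?_
    -- v 0 = R, v 1 = Z0, v 2 = M, v 3 = the set, v 4 = a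
    refine DZ.all (R := fun z v => z ∈ v 3 ↔ z ⊆ v 2 ∧ ∃ x1 ∈ v 1, ∀ y,
      ZFSet.pair (ZFSet.pair x1 (v 4)) y ∈ v 0 ↔ y = z) ?_
    refine (DZ.mem 0 4).iff ((Loc.sub 0 3).dz.and ?_)
    refine DZ.exMem (R := fun x1 v => ∀ y, ZFSet.pair (ZFSet.pair x1 (v 5)) y ∈ v 1 ↔ y = v 0) 2 ?_
    refine DZ.all (R := fun y v => ZFSet.pair (ZFSet.pair (v 0) (v 6)) y ∈ v 2 ↔ y = v 1) ?_
    refine DZ.iff ?_ (DZ.eq 0 2)
    refine (DZ.ex (R := fun p v => p = ZFSet.pair (v 1) (v 7) ∧ ZFSet.pair p (v 0) ∈ v 3)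
      ((loc_pair 0 2 8).dz.and (loc_pmem 0 1 4).dz)).congr fun v => ?_
    simp
  · show (∀ z, z ∈ w ↔ z ⊆ m.toZFSet ∧ ∃ x1 ∈ Z0, ∀ y,
      ZFSet.pair (ZFSet.pair x1 a) y ∈ R ↔ y = z) ↔ w = Z1
    constructor
    · intro h1
      ext z
      rw [h1 z, h z]
    · rintro rfl
      exact h

/-- NBC. -/
theorem pf_NBC (h0 : T_PVA.{u}) (h1 : T_SMV.{u}) : T_NBC.{u} := by
  classical
  intro δ hδ hA K hK hδK γ hγ hδγ
  obtain ⟨D, hDδ, hDr, hDs, hD0⟩ := Pool.Agent.H45.CF.ext_card hδ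
  have hK0 : ℵ₀ < K := by
    rw [hDδ] at hδK
    exact hD0.trans (Cardinal.ord_lt_ord.1 hδK)
  refine ⟨_, nbc_clb hK0 hδK, ?_⟩
  intro x hx m hm hmin B hB a ha hod
  obtain ⟨m', hm'K, ⟨hmlim, hδm⟩, -, he⟩ := hx.mem _ hm
  obtain rfl : m = m' := toZFSet_injective he
  have hlim : IsSuccLimit (min γ m) := nbc_lim hγ.lim hmlim
  have hδle : δ ≤ min γ m := le_min hδγ hδm.le
  -- the small set containing `x`
  have hxK : x ⊆ K.ord.toZFSet := by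
    intro z hz
    obtain ⟨b, hb, -, -, rfl⟩ := hx.mem z hz
    exact toZFSet_mem_toZFSet_iff.2 hb
  obtain ⟨Z0, hZ0, hxZ, ν, hν, e, he⟩ := (Pool.Agent.H75.PRK.pf_EQB δ hδ).1 hA K.ord x hxK hx.few
  obtain ⟨R, hR, hRB⟩ := (Pool.Agent.H45.NF.pf_pa _ B).1 hod
  -- the sets which are defined in the same way from elements of `Z0`
  set Z1 : ZFSet.{u} := ZFSet.sep (fun z => ∃ x1 ∈ Z0, ∀ y,
    ZFSet.pair (ZFSet.pair x1 a) y ∈ R ↔ y = z) (ZFSet.powerset m.toZFSet) with hZ1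
  have hmem : ∀ z, z ∈ Z1 ↔ z ⊆ m.toZFSet ∧ ∃ x1 ∈ Z0, ∀ y,
      ZFSet.pair (ZFSet.pair x1 a) y ∈ R ↔ y = z := fun z => by
    rw [hZ1, ZFSet.mem_sep, ZFSet.mem_powerset]
  have hodp : NF.ODp a Z1 := nbc_odp hR hZ0 hmem
  have hBZ : B ∈ Z1 := (hmem B).2 ⟨hB, x, hxZ, hRB⟩
  have hSz : NF.Sz ν Z1 := by
    refine ⟨fun i => if h : ∃ z, ∀ y, ZFSet.pair (ZFSet.pair (e i) a) y ∈ R ↔ y = z then
      h.choose else ∅, fun z hz => ?_⟩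
    obtain ⟨-, x1, hx1, hz1⟩ := (hmem z).1 hz
    obtain ⟨i, hi, rfl⟩ := he x1 hx1
    refine ⟨i, hi, ?_⟩
    have hex : ∃ z, ∀ y, ZFSet.pair (ZFSet.pair (e i) a) y ∈ R ↔ y = z := ⟨z, hz1⟩
    beta_reduce
    rw [dif_pos hex]
    exact (hex.choose_spec z).1 ((hz1 z).2 rfl)
  have hνD : ν < D := by
    rw [hDδ] at hν
    exact Cardinal.ord_lt_ord.1 hν
  obtain ⟨b, hb, hbB⟩ := h1 D hDr hDs hD0 m a Z1 hodp (fun B' hB' => ((hmem B').1 hB').1)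
    ⟨ν, hνD, hSz⟩ B hBZ
  obtain ⟨-, -, hc, -, -⟩ := h0
  refine hc _ hlim a b B ⟨a, ha, Pool.Agent.H75.PRK.EQB_odp a⟩
    ⟨b, ?_, Pool.Agent.H75.PRK.EQB_odp b⟩ hbB
  rw [ZFSet.mem_vonNeumann] at hb ⊢
  rw [← hDδ] at hb
  exact hb.trans_le hδle

end Pool.Agent.H63.HV
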